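import Pool.Agent.helper97.AS.Spec

/-!
# as:GOU: period `M + 1`, `M` odd: one more square, or one of the two extremal words
-/

set_option autoImplicit false

namespace Pool.Agent.helper97.AS

open Pool.Agent.helper20.LB (Step F IsSq Same Bd co)

/-- the complementary word has the same squares -/
theorem GOU_cnt (g : ℤ → ℤ) (x y : ℤ) (K : ℕ) (h : Cnt (co g) x y K) : Cnt g x y K := by
  obtain ⟨A, h1, h2, h3⟩ := h
  refine ⟨A, fun s hs => ?_, fun s hs t ht hst => h2 s hs t ht ?_, h3⟩
  · obtain ⟨a, b, c, d⟩ := h1 s hs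
    refine ⟨a, b, c, ?_⟩
    unfold F co at d
    unfold F
    linarith
  · refine ⟨hst.1, fun j hj1 hj2 => ?_⟩
    have := hst.2 j hj1 hj2
    unfold co
    linarith

/-- the complementary word is periodic -/
theorem GOU_per (g : ℤ → ℤ) (p τ : ℤ) (h : Per g p τ) : Per (co g) p (p - τ) := by
  obtain ⟨h1, h2, h3⟩ := h
  refine ⟨fun x => ?_, h2, fun x => ?_⟩
  · have := h1 x
    unfold co
    constructor <;> linarith [this.1, this.2]
  · have := h3 x
    unfold co
    linarith

/-- from one period to two periods -/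
theorem GOU_two (g : ℤ → ℤ) (M τ a b : ℤ) (h : Per g (M + 1) τ) (ha : g (M + 1) = g M + a)
    (hb : ∀ y, 0 ≤ y → y < M → g (y + 1) = g y + b) :
    ∀ y, 0 ≤ y → y < 2 * M + 1 → g (y + 1) = g y + (if y = M then a else b) := by
  intro y hy0 hy1
  by_cases hyM : y = M
  · rw [if_pos hyM, hyM, ha]
  · rw [if_neg hyM]
    rcases lt_or_gt_of_ne hyM with h1 | h1
    · exact hb y hy0 h1
    · have e1 := h.2.2 (y - (M + 1))
      have e2 := h.2.2 (y - (M + 1) + 1)
      have e3 := hb (y - (M + 1)) (by omega) (by omega)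
      have e4 : y - (M + 1) + (M + 1) = y := by ring
      have e5 : y - (M + 1) + 1 + (M + 1) = y + 1 := by ring
      rw [e4] at e1
      rw [e5] at e2
      linarith

theorem GOU (hEXT : EXT_stmt) (hGOO : GOO_stmt) (hTRA : TRA_stmt) (hUNI : UNI_stmt) : GOU_stmt := by
  intro f M hf hM hodd hper
  obtain ⟨g, hg, hgf⟩ := hEXT f 0 (M + 1) M hf (by omega) (by omega) (by
    intro y h0 h1
    have := hper y h0 (by omega)
    rw [zero_add]
    exact this)
  obtain ⟨τ, hτ⟩ : ∃ τ : ℤ, τ = f (0 + (M + 1)) - f 0 := ⟨_, rfl⟩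
  rw [← hτ] at hg
  have hM0 : 0 ≤ M := by omega
  have hcnt : Cnt g 0 (0 + (M + 1) + M) ((M + 1) / 2).toNat → Cnt f 0 (2 * M + 1) ((M + 1) / 2).toNat := by
    intro h
    exact hTRA f g 0 (0 + (M + 1) + M) (2 * M + 1) _ le_rfl (by omega) (fun z h0 h1 => hgf z h0 h1) h
  have hgf' : ∀ y, 0 ≤ y → y ≤ 2 * M + 1 → g y = f y := fun y h0 h1 => hgf y h0 (by omega)
  by_cases hT : TT g 0 M % 2 = 1
  · rcases hUNI g M τ hg hM hodd hT with h | ⟨h1, h2⟩
    · exact Or.inl (hcnt (hGOO g (M + 1) τ 0 M hg hM0 h))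
    · refine Or.inr (Or.inl fun y hy0 hy1 => ?_)
      have := GOU_two g M τ 0 1 hg (by rw [h1, add_zero]) h2 y hy0 hy1
      rw [hgf' y hy0 (by omega), hgf' (y + 1) (by omega) (by omega)] at this
      exact this
  · have hg' := GOU_per g (M + 1) τ hg
    have hT' : TT (co g) 0 M % 2 = 1 := by
      have e : TT (co g) 0 M = M + 2 - TT g 0 M := by
        unfold TT co
        ring
      omega
    rcases hUNI (co g) M (M + 1 - τ) hg' hM hodd hT' with h | ⟨h1, h2⟩
    · exact Or.inl (hcnt (GOU_cnt g _ _ _ (hGOO (co g) (M + 1) (M + 1 - τ) 0 M hg' hM0 h)))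
    · refine Or.inr (Or.inr fun y hy0 hy1 => ?_)
      have := GOU_two g M τ 1 0 hg (by
        unfold co at h1
        linarith) (fun z h0 hz => by
        have := h2 z h0 hz
        unfold co at this
        linarith) y hy0 hy1
      rw [hgf' y hy0 (by omega), hgf' (y + 1) (by omega) (by omega)] at this
      exact this

end Pool.Agent.helper97.AS
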